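import Pool.Agent.Y317.SQ.LLoc3

/-!
# Values of polynomials at an integral element over a complete field

The residue degree divides the exponent of the norm.
-/

open Polynomial IsLocalRing WithZero
open scoped NNReal

set_option autoImplicit false

namespace Pool.Agent.Q45.GS

open Pool.Agent.Y154.SE

variable {L : Type*} [NontriviallyNormedField L] [IsUltrametricDist L] [CompleteSpace L]
  {O : ValuationSubring L}

/-- The element `η` is integral and reduces to a root of `a`. -/
def Red (a : O[X]) (η : AlgebraicClosure L) : Prop :=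
  sv η ≤ 1 ∧ ∀ g : O[X], sv (ev η g) < 1 ↔ a.map (residue O) ∣ g.map (residue O)

theorem hcoef (hO : ∀ y : L, y ∈ O ↔ ‖y‖ ≤ 1) (g : O[X]) (i : ℕ) :
    sv (((g.map (algebraMap O L)).map (algebraMap L (AlgebraicClosure L))).coeff i) ≤ 1 := by
  rw [coeff_map, coeff_map]
  exact sv_coe_le hO _

/-- The integral lift of the minimal polynomial of an integral element. -/
theorem hlift (hO : ∀ y : L, y ∈ O ↔ ‖y‖ ≤ 1) (η : AlgebraicClosure L) (hη : sv η ≤ 1) :
    ∃ F : O[X], F.Monic ∧ F.map (algebraMap O L) = minpoly L η := by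
  have h1 := (sv_le_one_iff η).1 hη
  have h2 : minpoly L η ∈ lifts (algebraMap O L) := by
    rw [lifts_iff_coeff_lifts]
    intro n
    exact ⟨⟨_, (hO _).2 (h1 n)⟩, rfl⟩
  obtain ⟨F, h3, -, h4⟩ := lifts_and_natDegree_eq_and_monic h2
    (minpoly.monic (Algebra.IsIntegral.isIntegral η))
  exact ⟨F, h4, h3⟩

theorem red_deg (hO : ∀ y : L, y ∈ O ↔ ‖y‖ ≤ 1) {a : O[X]} (ham : a.Monic)
    (hai : Irreducible (a.map (residue O))) {η : AlgebraicClosure L} (h : Red a η) :
    (a.map (residue O)).natDegree ∣ (minpoly L η).natDegree := by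
  obtain ⟨F, hFm, hF⟩ := hlift hO η h.1
  obtain ⟨n, hn⟩ := red_pow hO η F hFm hF a ham hai h.2
  have hinj : Function.Injective (algebraMap O L) := Subtype.val_injective
  rw [← hF, natDegree_map_eq_of_injective hinj, ← hFm.natDegree_map (residue O), hn,
    (ham.map (residue O)).natDegree_pow]
  exact dvd_mul_left _ _

/-- The exponent of the norm of a value at `η` is divisible by the residue degree. -/
theorem exp_dvd (hO : ∀ y : L, y ∈ O ↔ ‖y‖ ≤ 1) (t : L)
    (hd : ∀ y : L, y ≠ 0 → ∃ k : ℤ, ‖y‖₊ = ‖t‖₊ ^ k) {a : O[X]} (ham : a.Monic)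
    (hai : Irreducible (a.map (residue O))) :
    ∀ (n : ℕ) (η : AlgebraicClosure L), (minpoly L η).natDegree = n → Red a η →
      ∀ c : L[X], aeval η c ≠ 0 →
        ∃ k : ℤ, sv (aeval η c) ^ n = ‖t‖₊ ^ (((a.map (residue O)).natDegree : ℤ) * k) := by
  intro n
  induction n using Nat.strong_induction_on with
  | _ n IH =>
  intro η hn hη
  set δ : ℕ := (a.map (residue O)).natDegree with hδ
  obtain ⟨j, hj⟩ : δ ∣ n := by rw [← hn]; exact red_deg hO ham hai hη
  have hiη : IsIntegral L η := Algebra.IsIntegral.isIntegral η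
  set Q := minpoly L η with hQ
  have hQm : Q.Monic := minpoly.monic hiη
  have hQi : Irreducible Q := minpoly.irreducible hiη
  obtain ⟨F, hFm, hF⟩ := hlift hO η hη.1
  have hinj : Function.Injective (algebraMap O L) := Subtype.val_injective
  obtain ⟨e, he⟩ := red_pow hO η F hFm hF a ham hai hη.2
  -- constants
  have hpow : ∀ y : L, y ≠ 0 → ∃ k : ℤ, ‖y‖₊ ^ n = ‖t‖₊ ^ ((δ : ℤ) * k) := by
    intro y hy
    obtain ⟨k, hk⟩ := hd y hy
    refine ⟨j * k, ?_⟩
    rw [hk, ← zpow_natCast, ← zpow_mul, hj]
    congr 1
    push_cast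
    ring
  -- the case of small degree
  have key : ∀ r : L[X], r ≠ 0 → r.natDegree < n →
      ∃ k : ℤ, sv (aeval η r) ^ n = ‖t‖₊ ^ ((δ : ℤ) * k) := by
    intro r
    induction r using WfDvdMonoid.induction_on_irreducible with
    | zero => intro h; exact absurd rfl h
    | unit u hu =>
      intro _ _
      obtain ⟨y, hy, rfl⟩ := Polynomial.isUnit_iff.1 hu
      rw [aeval_C, sv_algebraMap]
      exact hpow y hy.ne_zero
    | mul b i hb hi ih =>
      intro hib hdeg
      have hi0 : i ≠ 0 := hi.ne_zero
      rw [natDegree_mul hi0 hb] at hdeg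
      obtain ⟨k1, hk1⟩ := ih hb (by omega)
      -- the irreducible factor
      obtain ⟨k2, hk2⟩ : ∃ k : ℤ, sv (aeval η i) ^ n = ‖t‖₊ ^ ((δ : ℤ) * k) := by
        have hlc : i.leadingCoeff ≠ 0 := leadingCoeff_ne_zero.2 hi0
        set p : L[X] := i * C i.leadingCoeff⁻¹ with hp
        have hpm : p.Monic := monic_mul_leadingCoeff_inv hi0
        have hpi : Irreducible p := by
          rw [hp]
          exact (irreducible_mul_isUnit (isUnit_C.2 (isUnit_iff_ne_zero.2 (inv_ne_zero hlc)))).2 hi
        have hpd : p.natDegree = i.natDegree := by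
          rw [hp]
          exact natDegree_mul_C (inv_ne_zero hlc)
        have hip : i = C i.leadingCoeff * p := by
          rw [hp, mul_left_comm, ← C_mul, mul_inv_cancel₀ hlc, C_1, mul_one]
        obtain ⟨k3, hk3⟩ : ∃ k : ℤ, sv (aeval η p) ^ n = ‖t‖₊ ^ ((δ : ℤ) * k) := by
          obtain ⟨ξ, hξ⟩ := IsAlgClosed.exists_aeval_eq_zero (AlgebraicClosure L) p hpi.degree_pos.ne'
          have hξp : minpoly L ξ = p := (minpoly.eq_of_irreducible_of_monic hpi hξ hpm).symm
          have hsym : sv (aeval η p) ^ n = sv (aeval ξ Q) ^ p.natDegree := by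
            have := sv_resultant_comm η ξ
            rwa [hξp, hn] at this
          have hQξ : aeval ξ Q ≠ 0 := by
            intro h0
            have h1 : Q = p := by
              rw [← hξp]
              exact minpoly.eq_of_irreducible_of_monic hQi h0 hQm
            rw [← h1, hn] at hpd
            omega
          by_cases hξ1 : 1 < sv ξ
          · have hA2 : sv (aeval ξ Q) = sv ξ ^ n := by
              have := val_eval_large sv ((F.map (algebraMap O L)).map
                (algebraMap L (AlgebraicClosure L))) ((hFm.map _).map _) (hcoef hO F) ξ hξ1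
              rwa [eval_map_algebraMap, natDegree_map, hF, hn] at this
            have hX : ‖resultant p X‖₊ = sv ξ ^ p.natDegree := by
              have := sv_resultant ξ (X : L[X])
              rwa [hξp, aeval_X] at this
            have hX0 : resultant p (X : L[X]) ≠ 0 := by
              rw [← nnnorm_ne_zero_iff, hX]
              exact pow_ne_zero _ (zero_lt_one.trans hξ1).ne'
            obtain ⟨k, hk⟩ := hpow _ hX0
            refine ⟨k, ?_⟩
            rw [hsym, hA2, ← hk, hX, ← pow_mul, ← pow_mul, mul_comm]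
          · rw [not_lt] at hξ1
            obtain ⟨P, hPm, hP⟩ := hlift hO ξ hξ1
            obtain ⟨a', ham', hai', ha'⟩ := exists_a hO ξ hξ1 P hPm
              (by rw [ev_apply, hP, minpoly.aeval])
            by_cases haa : a'.map (residue O) = a.map (residue O)
            · have hred : Red a ξ := ⟨hξ1, fun g => by rw [ha', haa]⟩
              obtain ⟨k, hk⟩ := IH p.natDegree (by omega) ξ (by rw [hξp]) hred Q hQξ
              exact ⟨k, by rw [hsym, hk]⟩
            · refine ⟨0, ?_⟩
              have h1 : sv (aeval ξ Q) = 1 := by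
                refine le_antisymm ?_ ?_
                · rw [hQ, ← hF, ← ev_apply]
                  exact sv_ev_le hO hξ1 F
                · by_contra h2
                  rw [not_le, hQ, ← hF, ← ev_apply, ha', he] at h2
                  have h3 := hai'.prime.dvd_of_dvd_pow h2
                  exact haa (eq_of_irr_dvd (ham'.map _) (ham.map _) hai' hai h3).symm
              rw [hsym, h1, one_pow, mul_zero, zpow_zero]
        obtain ⟨k4, hk4⟩ := hpow _ hlc
        refine ⟨k4 + k3, ?_⟩
        conv_lhs => rw [hip]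
        rw [map_mul, aeval_C, map_mul, mul_pow, sv_algebraMap, hk3, hk4, mul_add]
        have ht0 : ‖t‖₊ ≠ 0 := by
          intro h0
          obtain ⟨y, hy⟩ := NormedField.exists_one_lt_norm L
          have hy0 : y ≠ 0 := by
            rintro rfl
            rw [norm_zero] at hy
            linarith
          obtain ⟨k, hk⟩ := hd y hy0
          have hy' : (1 : ℝ≥0) < ‖y‖₊ := hy
          rw [hk, h0] at hy'
          by_cases hk0 : k = 0
          · rw [hk0, zpow_zero] at hy'
            exact lt_irrefl _ hy'
          · rw [zero_zpow _ hk0] at hy'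
            exact absurd hy' (not_lt.2 zero_le_one)
        rw [zpow_add₀ ht0]
      have ht0 : ‖t‖₊ ≠ 0 := by
        intro h0
        obtain ⟨y, hy⟩ := NormedField.exists_one_lt_norm L
        have hy0 : y ≠ 0 := by
          rintro rfl
          rw [norm_zero] at hy
          linarith
        obtain ⟨k, hk⟩ := hd y hy0
        have hy' : (1 : ℝ≥0) < ‖y‖₊ := hy
        rw [hk, h0] at hy'
        by_cases hk0 : k = 0
        · rw [hk0, zpow_zero] at hy'
          exact lt_irrefl _ hy'
        · rw [zero_zpow _ hk0] at hy'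
          exact absurd hy' (not_lt.2 zero_le_one)
      refine ⟨k2 + k1, ?_⟩
      rw [map_mul, map_mul, mul_pow, hk1, hk2, mul_add, zpow_add₀ ht0]
  intro c hc
  have h1 : aeval η (c %ₘ Q) = aeval η c := by
    have h2 := congrArg (aeval η) (modByMonic_add_div c Q)
    rw [map_add, map_mul, hQ, minpoly.aeval, zero_mul, add_zero] at h2
    exact h2
  have h2 : c %ₘ Q ≠ 0 := by
    intro h0
    rw [h0, map_zero] at h1
    exact hc h1.symm
  have h3 : (c %ₘ Q).natDegree < n := by
    rw [← hn]
    exact natDegree_modByMonic_lt c hQm hQi.ne_one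
  rw [← h1]
  exact key _ h2 h3

end Pool.Agent.Q45.GS
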