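import Pool.Agent.Q45.GS.Crit

/-!
# The abstract descent for Tate classes over a base curve
-/

set_option autoImplicit false
set_option linter.all false

open Polynomial IsDedekindDomain
open scoped nonZeroDivisors Classical

namespace Pool.Agent.Q45.GP

open Pool.Agent.TH115.GD (incl rs ak Sep Comp CompInf IsTower rs_mul)
open Pool.Agent.W309.TD (locConst_apply)
open Pool.Agent.Y160.SQ

/-- The Tate conjecture at the prime `p` for the surface with generic fibre `y ^ ℓ = f(x)` over the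
field `K`, where `F` is the extension of `K` by the separable closure of the constants and `B` is a
Dedekind domain with field of fractions `F`. -/
def TateOver (p ℓ : ℕ) {K F : Type} [Field K] [Field F] [Algebra K F] (B : Type) [CommRing B]
    [IsDedekindDomain B] [Algebra B F] [IsFractionRing B F] (f : K[X]) : Prop :=
  ∀ c : ℕ → (Sep F ≃ₐ[F] Sep F) → Jac ℓ f (Sep F), IsTC p ℓ f c →
    (∀ n, ∀ v : HeightOneSpectrum B, LocTriv ℓ f (Comp B F v) (Sep (Comp B F v)) (c n)) →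
    IsInv p ℓ f c →
    ∀ n, ∃ (P : Jac ℓ f K) (R : Jac ℓ f (Sep F)), p ^ n • R = jm ℓ f (incl K K (Sep F)) P ∧
      ∀ σ, c n σ = jm ℓ f (rs K σ) R - R

section step

variable {p m ℓ : ℕ} {B K F : Type} [CommRing B] [IsDedekindDomain B] [Field K] [Field F]
  [Algebra K F] [Algebra B F] [IsFractionRing B F] {f : K[X]} {ζ : K} (H : Hyps) (hg : Good ℓ ζ f) (hp : p.Prime)
  (hpm : ℓ = p ^ m)

/-- Tate classes. -/
structure IsTCl (p ℓ : ℕ) (B : Type) [CommRing B] [IsDedekindDomain B] [Algebra B F]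
    [IsFractionRing B F] (f : K[X]) (c : ℕ → (Sep F ≃ₐ[F] Sep F) → Jac ℓ f (Sep F)) : Prop where
  tc : IsTC p ℓ f c
  loc : ∀ n, ∀ v : HeightOneSpectrum B, LocTriv ℓ f (Comp B F v) (Sep (Comp B F v)) (c n)
  inv : IsInv p ℓ f c

include H hg hp hpm

/-- Division of a Tate class by `1 - σ`. -/
theorem div_class {c : ℕ → (Sep F ≃ₐ[F] Sep F) → Jac ℓ f (Sep F)} (hT : IsTCl p ℓ B f c)
    {P : Jac ℓ f K} {R : Jac ℓ f (Sep F)}
    (hR : pe hg (Sep F) (1 - X) R = jm ℓ f (incl K K (Sep F)) P)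
    (key : ∀ σ, pe hg (Sep F) (uu ℓ) (c m σ) = jm ℓ f (rs K σ) R - R) :
    ∃ (G : ℕ → Jac ℓ f (Sep F)) (c' : ℕ → (Sep F ≃ₐ[F] Sep F) → Jac ℓ f (Sep F)),
      G 0 = jm ℓ f (incl K K (Sep F)) P ∧ (∀ n, p • G (n + 1) = G n) ∧ IsTCl p ℓ B f c' ∧
      ∀ n σ, c n σ = (jm ℓ f (rs K σ) (G n) - G n) + pe hg (Sep F) (1 - X) (c' n σ) := by
  have hsm : ∀ x : Jac ℓ f (Sep F), ℓ • x = p ^ m • x := fun x => congrArg (fun n : ℕ => n • x) hpm
  -- divisibility by `p`
  obtain ⟨W, hW⟩ := exists_W' (p := p) (m := m) hg hp hpm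
  have hdiv : ∀ x : Jac ℓ f (Sep F), ∃ y, p • y = x := by
    intro x
    obtain ⟨y, hy⟩ := lam_pow_surj H hg ℓ x
    exact ⟨pe hg _ W y, by rw [← hW, hy]⟩
  choose dv hdv using hdiv
  have hdivm : ∀ (n : ℕ) (x : Jac ℓ f (Sep F)), ∃ y, p ^ n • y = x := by
    intro n
    induction n with
    | zero => intro x; exact ⟨x, by rw [pow_zero, one_smul]⟩
    | succ n ih =>
      intro x
      obtain ⟨y, hy⟩ := ih x
      exact ⟨dv y, by rw [pow_succ, mul_smul, hdv, hy]⟩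
  obtain ⟨y0, hy0⟩ := hdivm m R
  set R1 : Jac ℓ f (Sep F) := pe hg (Sep F) (1 - X) y0 with hR1'
  have hR1 : pe hg (Sep F) (uu ℓ) R1 = R := by
    rw [hR1', uu_mul H, hsm, hy0]
  let G' : ℕ → Jac ℓ f (Sep F) := fun n => Nat.rec R1 (fun _ X => dv X) n
  have G'0 : G' 0 = R1 := rfl
  have G'S : ∀ n, p • G' (n + 1) = G' n := fun n => hdv _
  have G'pow : ∀ n, p ^ n • G' n = R1 := by
    intro n
    induction n with
    | zero => rw [pow_zero, one_smul, G'0]
    | succ n ih => rw [pow_succ, mul_smul, G'S, ih]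
  let G : ℕ → Jac ℓ f (Sep F) := fun n => p ^ m • G' n
  have Gm : G m = R1 := G'pow m
  have G0 : G 0 = jm ℓ f (incl K K (Sep F)) P := by
    show p ^ m • R1 = _
    rw [← hsm, ← uu_mul' H hg, hR1, hR]
  have GS : ∀ n, p • G (n + 1) = G n := by
    intro n
    show p • (p ^ m • G' (n + 1)) = p ^ m • G' n
    rw [smul_comm, G'S]
  have PK : ∀ φ : Sep F →ₐ[K] Sep F, jm ℓ f φ (G 0) = G 0 := by
    intro φ
    have h1 : φ.comp (incl K K (Sep F)) = incl K K (Sep F) := AlgHom.ext fun x => φ.commutes x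
    rw [G0, jm_jm, h1]
  set V : ℤ[X] := uu ℓ with hV
  let b : ℕ → (Sep F ≃ₐ[F] Sep F) → Jac ℓ f (Sep F) := fun n σ =>
    c n σ - (jm ℓ f (rs K σ) (G n) - G n)
  let c' : ℕ → (Sep F ≃ₐ[F] Sep F) → Jac ℓ f (Sep F) := fun n σ => pe hg (Sep F) V (b (n + m) σ)
  have bS : ∀ n σ, p • b (n + 1) σ = b n σ := by
    intro n σ
    show p • (c (n + 1) σ - (jm ℓ f (rs K σ) (G (n + 1)) - G (n + 1))) = _
    rw [smul_sub, smul_sub, ← map_nsmul, GS, hT.tc.step]
  have bpow : ∀ k n σ, p ^ k • b (n + k) σ = b n σ := by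
    intro k
    induction k with
    | zero => intro n σ; rw [pow_zero, one_smul, add_zero]
    | succ k ih => intro n σ; rw [pow_succ, mul_smul, ← add_assoc, bS, ih]
  have hlam : ∀ n σ, pe hg (Sep F) (1 - X) (c' n σ) = b n σ := by
    intro n σ
    show pe hg (Sep F) (1 - X) (pe hg (Sep F) V (b (n + m) σ)) = _
    rw [hV, uu_mul' H, hsm, bpow]
  refine ⟨G, c', G0, GS, ⟨?_, fun n => ?_, ?_⟩, fun n σ => ?_⟩
  · refine ⟨fun n => ((hT.tc.coc (n + m)).sub (cob_isCoc H hg _)).pe hg V, fun σ => ?_, fun n σ => ?_⟩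
    · show pe hg (Sep F) V (b (0 + m) σ) = 0
      rw [zero_add]
      show pe hg (Sep F) (uu ℓ) (c m σ - (jm ℓ f (rs K σ) (G m) - G m)) = 0
      rw [map_sub, key, map_sub, ← jm_pe, Gm, hR1, sub_self]
    · show p • pe hg (Sep F) V (b (n + 1 + m) σ) = pe hg (Sep F) V (b (n + m) σ)
      rw [← map_nsmul, show n + 1 + m = (n + m) + 1 by omega, bS]
  · exact fun v => ((hT.loc (n + m) v).sub _).pe hg V
  · intro τ
    obtain ⟨M, Q, hQ, hinv⟩ := hT.inv τ
    -- the element for `b`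
    let Q' : ℕ → Jac ℓ f (Sep F) := fun n => Q n - p ^ M • (jm ℓ f (ak τ) (G n) - G n)
    have Q'0 : Q' 0 = 0 := by
      show Q 0 - p ^ M • (jm ℓ f (ak τ) (G 0) - G 0) = 0
      rw [hQ.zero, PK, sub_self, smul_zero, sub_zero]
    have Q'S : ∀ n, p • Q' (n + 1) = Q' n := by
      intro n
      show p • (Q (n + 1) - p ^ M • (jm ℓ f (ak τ) (G (n + 1)) - G (n + 1))) = _
      rw [smul_sub, hQ.step, smul_comm, smul_sub, ← map_nsmul, GS]
    have Q'pow : ∀ k n, p ^ k • Q' (n + k) = Q' n := by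
      intro k
      induction k with
      | zero => intro n; rw [pow_zero, one_smul, add_zero]
      | succ k ih => intro n; rw [pow_succ, mul_smul, ← add_assoc, Q'S, ih]
    have hb : ∀ (n : ℕ) (σ σ' : Sep F ≃ₐ[F] Sep F), (∀ x, τ (σ' x) = σ (τ x)) →
        p ^ M • (jm ℓ f (ak τ) (b n σ') - b n σ) = jm ℓ f (rs K σ) (Q' n) - Q' n := by
      intro n σ σ' h
      have h1 := hinv n σ σ' h
      have hcomp : jm ℓ f (ak τ) (jm ℓ f (rs K σ') (G n)) =
          jm ℓ f (rs K σ) (jm ℓ f (ak τ) (G n)) := by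
        have h5 : (ak τ).comp (rs K σ') = (rs K σ).comp (ak τ) := AlgHom.ext fun x => h x
        rw [jm_jm, jm_jm, h5]
      show p ^ M • (jm ℓ f (ak τ) (c n σ' - (jm ℓ f (rs K σ') (G n) - G n)) -
        (c n σ - (jm ℓ f (rs K σ) (G n) - G n))) =
        jm ℓ f (rs K σ) (Q n - p ^ M • (jm ℓ f (ak τ) (G n) - G n)) -
          (Q n - p ^ M • (jm ℓ f (ak τ) (G n) - G n))
      rw [map_sub (jm ℓ f (ak τ)), map_sub (jm ℓ f (ak τ)), hcomp]
      have h4 : jm ℓ f (ak τ) (c n σ') -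
          (jm ℓ f (rs K σ) (jm ℓ f (ak τ) (G n)) - jm ℓ f (ak τ) (G n)) -
          (c n σ - (jm ℓ f (rs K σ) (G n) - G n)) =
          (jm ℓ f (ak τ) (c n σ') - c n σ) -
          (jm ℓ f (rs K σ) (jm ℓ f (ak τ) (G n) - G n) - (jm ℓ f (ak τ) (G n) - G n)) := by
        rw [map_sub (jm ℓ f (rs K σ))]; abel
      rw [h4, smul_sub, h1, map_sub (jm ℓ f (rs K σ)) (Q n), map_nsmul (jm ℓ f (rs K σ)), smul_sub]
      abel
    refine ⟨m + M, fun n => pe hg (Sep F) V (Q' n), ⟨?_, fun n => ?_⟩, ?_⟩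
    · show pe hg (Sep F) V (Q' 0) = 0
      rw [Q'0, map_zero]
    · show p • (pe hg (Sep F) V (Q' (n + 1))) = pe hg (Sep F) V (Q' n)
      rw [← map_nsmul (pe hg (Sep F) V), Q'S]
    · intro n σ σ' h
      have h1 := hb (n + m) σ σ' h
      show p ^ (m + M) • (jm ℓ f (ak τ) (pe hg (Sep F) V (b (n + m) σ')) -
        pe hg (Sep F) V (b (n + m) σ)) = jm ℓ f (rs K σ) (pe hg (Sep F) V (Q' n)) -
          pe hg (Sep F) V (Q' n)
      rw [jm_pe, ← map_sub, pow_add, mul_smul, ← map_nsmul, h1, ← map_nsmul, smul_sub,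
        ← map_nsmul (jm ℓ f (rs K σ)), Q'pow, map_sub, jm_pe]
  · rw [hlam]
    show c n σ = (jm ℓ f (rs K σ) (G n) - G n) + (c n σ - (jm ℓ f (rs K σ) (G n) - G n))
    abel

/-- If the first layer of every Tate class is the class of an element of `J(K)`, the Tate
conjecture at `p` holds. -/
theorem tate_of_first
    (h : ∀ c : ℕ → (Sep F ≃ₐ[F] Sep F) → Jac ℓ f (Sep F), IsTCl p ℓ B f c →
      ∃ (P : Jac ℓ f K) (R : Jac ℓ f (Sep F)),
        pe hg (Sep F) (1 - X) R = jm ℓ f (incl K K (Sep F)) P ∧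
        ∀ σ, pe hg (Sep F) (uu ℓ) (c m σ) = jm ℓ f (rs K σ) R - R) :
    TateOver (F := F) p ℓ B f := by
  have key : ∀ (N : ℕ) (c : ℕ → (Sep F ≃ₐ[F] Sep F) → Jac ℓ f (Sep F)), IsTCl p ℓ B f c →
      ∃ (P : Jac ℓ f K) (G : ℕ → Jac ℓ f (Sep F))
        (c' : ℕ → (Sep F ≃ₐ[F] Sep F) → Jac ℓ f (Sep F)),
        G 0 = jm ℓ f (incl K K (Sep F)) P ∧ (∀ n, p • G (n + 1) = G n) ∧ IsTCl p ℓ B f c' ∧
        ∀ n σ, c n σ = (jm ℓ f (rs K σ) (G n) - G n) + pe hg (Sep F) ((1 - X) ^ N) (c' n σ) := by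
    intro N
    induction N with
    | zero =>
      intro c hc
      refine ⟨0, fun _ => 0, c, ?_, fun n => smul_zero _, hc, fun n σ => ?_⟩
      · rw [map_zero]
      · rw [map_zero, sub_zero, zero_add, pow_zero, pe_one]
    | succ N ih =>
      intro c hc
      obtain ⟨P1, R, hR, hcR⟩ := h c hc
      obtain ⟨G1, c1, h1, h3, h4, h5⟩ := div_class H hg hp hpm hc hR hcR
      obtain ⟨P2, G2, c2, h6, h7, h8, h9⟩ := ih c1 h4
      refine ⟨P1 + pe hg K (1 - X) P2, fun n => G1 n + pe hg (Sep F) (1 - X) (G2 n), c2, ?_,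
        fun n => ?_, h8, fun n σ => ?_⟩
      · show G1 0 + pe hg (Sep F) (1 - X) (G2 0) = _
        rw [h1, h6, map_add, jm_pe]
      · show p • (G1 (n + 1) + pe hg (Sep F) (1 - X) (G2 (n + 1))) = _
        rw [smul_add, h3, ← map_nsmul, h7]
      · show c n σ = (jm ℓ f (rs K σ) (G1 n + pe hg (Sep F) (1 - X) (G2 n)) -
          (G1 n + pe hg (Sep F) (1 - X) (G2 n))) + pe hg (Sep F) ((1 - X) ^ (N + 1)) (c2 n σ)
        rw [h5, h9, map_add, map_sub, ← pe_mul, ← pow_succ', map_add, jm_pe]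
        abel
  intro c hc hl hi n
  obtain ⟨W, hW⟩ := exists_W' (p := p) (m := m) hg hp hpm
  obtain ⟨P, G, c', h0, h1, h3, h4⟩ := key (ℓ * n) c ⟨hc, hl, hi⟩
  have hWn : ∀ (n : ℕ) (x : Jac ℓ f (Sep F)), pe hg (Sep F) ((1 - X) ^ (ℓ * n)) x =
      pe hg (Sep F) (W ^ n) (p ^ n • x) := by
    intro n
    induction n with
    | zero => intro x; rw [mul_zero, pow_zero, pow_zero, pow_zero, one_smul]
    | succ n ih =>
      intro x
      rw [mul_add, mul_one, pow_add, pe_mul, hW, ih, pow_succ W, pe_mul, pow_succ p, mul_smul,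
        ← map_nsmul, ← map_nsmul, smul_comm]
  have hz : ∀ (n : ℕ) (σ : Sep F ≃ₐ[F] Sep F), p ^ n • c' n σ = 0 := by
    intro n σ
    induction n with
    | zero => rw [pow_zero, one_smul, h3.tc.zero]
    | succ n ih => rw [pow_succ, mul_smul, h3.tc.step, ih]
  have hG : ∀ n : ℕ, p ^ n • G n = jm ℓ f (incl K K (Sep F)) P := by
    intro n
    induction n with
    | zero => rw [pow_zero, one_smul, h0]
    | succ n ih => rw [pow_succ, mul_smul, h1, ih]
  refine ⟨P, G n, hG n, fun σ => ?_⟩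
  rw [h4 n σ, hWn, hz, map_zero, add_zero]

end step

end Pool.Agent.Q45.GP
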